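import Pool.Agent.H559.GO.Stm

set_option autoImplicit false

/-! # Walks of length at most five from two connection properties -/

namespace Pool.Agent.H559.GO

namespace Comb

variable {V : Type} {G : SimpleGraph V}

/-- there is a walk of length at most `k` -/
def W (G : SimpleGraph V) (k : ℕ) (u v : V) : Prop := ∃ w : G.Walk u v, w.length ≤ k

theorem W.trans {k l : ℕ} {u v w : V} (h : W G k u v) (h' : W G l v w) : W G (k + l) u w := by
  obtain ⟨p, hp⟩ := h
  obtain ⟨q, hq⟩ := h'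
  exact ⟨p.append q, by rw [SimpleGraph.Walk.length_append]; omega⟩

theorem W.symm {k : ℕ} {u v : V} (h : W G k u v) : W G k v u := by
  obtain ⟨p, hp⟩ := h
  exact ⟨p.reverse, by rw [SimpleGraph.Walk.length_reverse]; exact hp⟩

theorem W.of_adj {u v : V} (h : G.Adj u v) : W G 1 u v := ⟨h.toWalk, by simp⟩

theorem W.mono {k l : ℕ} {u v : V} (h : W G k u v) (hkl : k ≤ l) : W G l u v := by
  obtain ⟨p, hp⟩ := h
  exact ⟨p, hp.trans hkl⟩

theorem adj {val : V → ℕ} {O : ℕ → Prop} (hodd : ∀ m, O m → Odd m)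
    (hE : ∀ u v, val u ≠ val v → O (val u + val v) → O (Nat.dist (val u) (val v)) → G.Adj u v)
    {u v : V} (h1 : O (val u + val v)) (h2 : O (Nat.dist (val u) (val v))) : G.Adj u v := by
  refine hE u v ?_ h1 h2
  intro h
  rw [h, Nat.dist_self] at h2
  have := hodd 0 h2
  simp at this

end Comb

open Comb in
theorem t_comb : S_comb := by
  intro V G val n O hn hodd hO3 hE _ hval hs H1 H2
  have T2 : ∀ u v : V, val u % 2 = val v % 2 → (3 ∣ val u ↔ 3 ∣ val v) → W G 2 u v := by
    intro u v h2 h3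
    obtain ⟨s, hs0, hsn, -, -, k1, k2, k3, k4⟩ := H1 (val u) (val v) (hval u) (hval v) h2 h3
    obtain ⟨p, rfl⟩ := hs s hs0 hsn
    exact (W.of_adj (adj hodd hE k1 k2)).symm.trans (W.of_adj (adj hodd hE k3 k4))
  have T3 : ∀ u v : V, val u % 2 ≠ val v % 2 → ¬ (3 ∣ val u ↔ 3 ∣ val v) → W G 3 u v := by
    intro u v h2 h3
    obtain ⟨s, hs0, hsn, hs2, hs3, k1, k2, -, -⟩ := H1 (val u) (val u) (hval u) (hval u) rfl Iff.rfl
    obtain ⟨p, rfl⟩ := hs s hs0 hsn
    have h4 : W G 2 p v := T2 p v (by omega) (by tauto)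
    exact (W.of_adj (adj hodd hE k1 k2)).symm.trans h4
  have B : ∀ b : ℕ, b ≤ n → 3 ∣ b → ∃ p r : V, val p % 2 = b % 2 ∧ ¬ 3 ∣ val p ∧
      val r = val p + 3 ∧ G.Adj p r ∧ O (val r + b) ∧ O (Nat.dist (val r) b) := by
    intro b hb hb3
    obtain ⟨s, hs0, hsn, hs2, hs3, k1, k2, k3⟩ := H2 b hb hb3
    obtain ⟨p, rfl⟩ := hs s hs0 (by omega)
    obtain ⟨r, hr⟩ := hs (val p + 3) (by omega) hsn
    refine ⟨p, r, hs2, hs3, hr, ?_, by rw [hr]; exact k2, by rw [hr]; exact k3⟩
    refine adj hodd hE ?_ ?_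
    · rw [hr, show val p + (val p + 3) = 2 * val p + 3 by ring]
      exact k1
    · rw [hr, Nat.dist_eq_sub_of_le (by omega), show val p + 3 - val p = 3 by omega]
      exact hO3
  -- a bridge from a vertex whose value is divisible by three
  have B2 : ∀ v : V, 3 ∣ val v → ∃ p : V, val p % 2 = val v % 2 ∧ ¬ 3 ∣ val p ∧ W G 2 v p := by
    intro v hv
    obtain ⟨p, r, h1, h2, -, h3, h4, h5⟩ := B (val v) (hval v) hv
    exact ⟨p, h1, h2, ((W.of_adj h3).trans (W.of_adj (adj hodd hE h4 h5))).symm⟩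
  have C4 : ∀ u v : V, val u % 2 = val v % 2 → ¬ 3 ∣ val u → 3 ∣ val v → W G 5 u v := by
    intro u v h2 hu hv
    obtain ⟨p, h3, h4, h5⟩ := B2 v hv
    have h6 : W G 2 u p := T2 u p (by omega) (by tauto)
    exact (h6.trans h5.symm).mono (by norm_num)
  intro u v
  show W G 5 u v
  by_cases h2 : val u % 2 = val v % 2
  · by_cases hu : 3 ∣ val u
    · by_cases hv : 3 ∣ val v
      · exact (T2 u v h2 (by tauto)).mono (by norm_num)
      · exact (C4 v u h2.symm hv hu).symm
    · by_cases hv : 3 ∣ val v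
      · exact C4 u v h2 hu hv
      · exact (T2 u v h2 (by tauto)).mono (by norm_num)
  · by_cases hu : 3 ∣ val u
    · by_cases hv : 3 ∣ val v
      · obtain ⟨p, h3, h4, h5⟩ := B2 v hv
        have h6 : W G 3 u p := T3 u p (by omega) (by tauto)
        exact h6.trans h5.symm
      · exact (T3 u v h2 (by tauto)).mono (by norm_num)
    · by_cases hv : 3 ∣ val v
      · exact (T3 u v h2 (by tauto)).mono (by norm_num)
      · obtain ⟨p, r, h3, h4, h5, h6, -, -⟩ := B (if val u % 2 = 0 then 0 else 3)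
          (by split_ifs <;> omega) (by split_ifs <;> norm_num)
        have h7 : val p % 2 = val u % 2 := by
          rw [h3]
          split_ifs <;> omega
        have h8 : W G 2 u p := T2 u p h7.symm (by tauto)
        have h9 : W G 2 r v := T2 r v (by omega) (by omega)
        exact ((h8.trans (W.of_adj h6)).trans h9)

end Pool.Agent.H559.GO
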