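import Pool.Agent.H559.GO.Stm

set_option autoImplicit false

/-! # FD1 (by helper581 for helper559) -/

namespace Pool.Agent.H559.GO

namespace Fd1

/-- four linear forms with leading coefficient six do not cover all classes modulo a prime `p ≥ 5` -/
theorem avoid (p : ℕ) (hp : p.Prime) (h5 : 5 ≤ p) (c : Fin 4 → ℤ) :
    ∃ r : ℕ, ∀ i, ¬ (p : ℤ) ∣ c i + 6 * r := by
  by_contra hc
  push Not at hc
  choose f hf using hc
  have h1 : ¬ Function.Injective (fun r : Fin p => f (r : ℕ)) := by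
    intro hinj
    have h2 := Fintype.card_le_of_injective _ hinj
    rw [Fintype.card_fin, Fintype.card_fin] at h2
    omega
  rw [Function.not_injective_iff] at h1
  obtain ⟨r, s, hrs, hne⟩ := h1
  apply hne
  have h3 := hf (r : ℕ)
  have h4 := hf (s : ℕ)
  have hrs' : f (r : ℕ) = f (s : ℕ) := hrs
  rw [← hrs'] at h4
  have h6 : (p : ℤ) ∣ 6 * (((r : ℕ) : ℤ) - ((s : ℕ) : ℤ)) := by
    have := dvd_sub h3 h4
    have e : c (f (r : ℕ)) + 6 * (((r : ℕ) : ℕ) : ℤ) - (c (f (r : ℕ)) + 6 * (((s : ℕ) : ℕ) : ℤ)) =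
        6 * (((r : ℕ) : ℤ) - ((s : ℕ) : ℤ)) := by ring
    rwa [e] at this
  have h7 : IsCoprime (p : ℤ) 6 := by
    have h8 : Nat.Coprime p 6 := by
      rw [Nat.Prime.coprime_iff_not_dvd hp]
      intro hd
      have h9 : p ∣ 2 * 3 := hd
      rcases (Nat.Prime.dvd_mul hp).1 h9 with h | h
      · have := Nat.le_of_dvd (by norm_num) h
        omega
      · have := Nat.le_of_dvd (by norm_num) h
        omega
    exact_mod_cast h8.isCoprime
  have h8 : (p : ℤ) ∣ (((r : ℕ) : ℤ) - ((s : ℕ) : ℤ)) := h7.dvd_of_dvd_mul_left h6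
  have hr := r.2
  have hs := s.2
  apply Fin.ext
  have h9 : (((r : ℕ) : ℤ) - ((s : ℕ) : ℤ)) = 0 := by
    apply Int.eq_zero_of_abs_lt_dvd h8
    rw [abs_lt]
    constructor <;> omega
  omega

theorem sigma (a : ℕ) : ∃ σ : ℕ, σ < 6 ∧ σ % 2 ≠ a % 2 ∧ (3 ∣ σ ↔ ¬ 3 ∣ a) := by
  have h : a % 6 = 0 ∨ a % 6 = 1 ∨ a % 6 = 2 ∨ a % 6 = 3 ∨ a % 6 = 4 ∨ a % 6 = 5 := by omega
  rcases h with h | h | h | h | h | h
  · exact ⟨1, by omega, by omega, by omega⟩
  · exact ⟨0, by omega, by omega, by omega⟩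
  · exact ⟨3, by omega, by omega, by omega⟩
  · exact ⟨4, by omega, by omega, by omega⟩
  · exact ⟨3, by omega, by omega, by omega⟩
  · exact ⟨0, by omega, by omega, by omega⟩

end Fd1

theorem t_fd1 : S_fd1 := by
  intro a b hab hab3
  obtain ⟨σ, h6, h2, h3⟩ := Fd1.sigma a
  refine ⟨σ, h6, h2, h3, fun p hp => ?_⟩
  by_cases hp5 : 5 ≤ p
  · obtain ⟨r, hr⟩ := Fd1.avoid p hp hp5 ![(σ : ℤ) + a, (σ : ℤ) - a, (σ : ℤ) + b, (σ : ℤ) - b]
    exact ⟨r, hr 0, hr 1, hr 2, hr 3⟩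
  · have hp2 := hp.two_le
    have hpc : p = 2 ∨ p = 3 ∨ p = 4 := by omega
    rcases hpc with rfl | rfl | rfl
    · refine ⟨0, ?_, ?_, ?_, ?_⟩ <;> push_cast <;> omega
    · refine ⟨0, ?_, ?_, ?_, ?_⟩ <;> push_cast <;> omega
    · exact absurd hp (by norm_num)

end Pool.Agent.H559.GO
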