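import Pool.Agent.H559.GO.Stm

set_option autoImplicit false

/-! # The second system has no fixed divisor (helper118) -/

open Finset

namespace Pool.Agent.H559.GO

namespace Fd2

/-- one form vanishes for at most one of four consecutive arguments -/
theorem card_le {p : ℕ} (hp : p.Prime) (h5 : 5 ≤ p) {k : ℤ} (hk : ¬ (p : ℤ) ∣ k) (A : ℤ) :
    ((range 4).filter fun r : ℕ => (p : ℤ) ∣ A + k * r).card ≤ 1 := by
  rw [Finset.card_le_one]
  intro r hr r' hr'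
  rw [mem_filter, mem_range] at hr hr'
  have h1 : (p : ℤ) ∣ k * ((r : ℤ) - r') := by
    have h2 := dvd_sub hr.2 hr'.2
    have h3 : A + k * r - (A + k * r') = k * ((r : ℤ) - r') := by ring
    rwa [h3] at h2
  rcases (Nat.prime_iff_prime_int.1 hp).dvd_or_dvd h1 with h2 | h2
  · exact absurd h2 hk
  · by_contra hne
    have h3 : ((r : ℤ) - r') = 0 := by
      refine Int.eq_zero_of_abs_lt_dvd h2 ?_
      rw [abs_lt]
      constructor <;> omega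
    omega

theorem exists_good {p : ℕ} (hp : p.Prime) (h5 : 5 ≤ p) {k1 k2 k3 : ℤ} (hk1 : ¬ (p : ℤ) ∣ k1)
    (hk2 : ¬ (p : ℤ) ∣ k2) (hk3 : ¬ (p : ℤ) ∣ k3) (A1 A2 A3 : ℤ) :
    ∃ r : ℕ, ¬ (p : ℤ) ∣ A1 + k1 * r ∧ ¬ (p : ℤ) ∣ A2 + k2 * r ∧ ¬ (p : ℤ) ∣ A3 + k3 * r := by
  by_contra hcon
  push Not at hcon
  have hsub : range 4 ⊆ ((range 4).filter fun r : ℕ => (p : ℤ) ∣ A1 + k1 * r) ∪
      (((range 4).filter fun r : ℕ => (p : ℤ) ∣ A2 + k2 * r) ∪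
        ((range 4).filter fun r : ℕ => (p : ℤ) ∣ A3 + k3 * r)) := by
    intro r hr
    rw [mem_union, mem_union, mem_filter, mem_filter, mem_filter]
    by_cases h1 : (p : ℤ) ∣ A1 + k1 * r
    · exact Or.inl ⟨hr, h1⟩
    · by_cases h2 : (p : ℤ) ∣ A2 + k2 * r
      · exact Or.inr (Or.inl ⟨hr, h2⟩)
      · exact Or.inr (Or.inr ⟨hr, hcon r h1 h2⟩)
  have h1 := card_le_card hsub
  rw [card_range] at h1
  have h2 := card_union_le ((range 4).filter fun r : ℕ => (p : ℤ) ∣ A1 + k1 * r)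
    (((range 4).filter fun r : ℕ => (p : ℤ) ∣ A2 + k2 * r) ∪
        ((range 4).filter fun r : ℕ => (p : ℤ) ∣ A3 + k3 * r))
  have h3 := card_union_le ((range 4).filter fun r : ℕ => (p : ℤ) ∣ A2 + k2 * r)
        ((range 4).filter fun r : ℕ => (p : ℤ) ∣ A3 + k3 * r)
  have h4 := card_le hp h5 hk1 A1
  have h6 := card_le hp h5 hk2 A2
  have h7 := card_le hp h5 hk3 A3
  omega

theorem ndvd6 {p : ℕ} (hp : p.Prime) (h5 : 5 ≤ p) : ¬ (p : ℤ) ∣ 6 := by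
  intro h
  have h1 : p ∣ 2 * 3 := by exact_mod_cast h
  rcases (hp.dvd_mul).1 h1 with h2 | h2
  · exact absurd (Nat.le_of_dvd (by norm_num) h2) (by omega)
  · exact absurd (Nat.le_of_dvd (by norm_num) h2) (by omega)

theorem ndvd12 {p : ℕ} (hp : p.Prime) (h5 : 5 ≤ p) : ¬ (p : ℤ) ∣ 12 := by
  intro h
  have h1 : p ∣ 2 * 6 := by exact_mod_cast h
  rcases (hp.dvd_mul).1 h1 with h2 | h2
  · exact absurd (Nat.le_of_dvd (by norm_num) h2) (by omega)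
  · exact ndvd6 hp h5 (by exact_mod_cast h2)

/-- the small primes -/
theorem small {b σ : ℕ} (hb : 3 ∣ b) (h2 : σ % 2 = b % 2) (h3 : σ % 3 = 1) {p : ℕ} (hp : p.Prime) :
    ∃ r : ℕ, ¬ (p : ℤ) ∣ 2 * (σ : ℤ) + 3 + 12 * r ∧ ¬ (p : ℤ) ∣ (σ : ℤ) + 3 + b + 6 * r ∧
      ¬ (p : ℤ) ∣ (σ : ℤ) + 3 - b + 6 * r := by
  rcases lt_or_ge p 5 with h | h
  · have hp2 := hp.two_le
    have hp4 : p ≠ 4 := by
      rintro rfl
      revert hp
      norm_num
    have hp23 : p = 2 ∨ p = 3 := by omega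
    refine ⟨0, ?_⟩
    rcases hp23 with rfl | rfl
    · refine ⟨?_, ?_, ?_⟩ <;> · push_cast; omega
    · refine ⟨?_, ?_, ?_⟩ <;> · push_cast; omega
  · obtain ⟨r, h4, h5, h6⟩ := exists_good hp h (ndvd12 hp h) (ndvd6 hp h) (ndvd6 hp h)
      (2 * (σ : ℤ) + 3) ((σ : ℤ) + 3 + b) ((σ : ℤ) + 3 - b)
    exact ⟨r, h4, h5, h6⟩

end Fd2

/-- **FD2.** -/
theorem t_fd2 : S_fd2 := by
  intro b hb
  rcases Nat.mod_two_eq_zero_or_one b with h | h
  · refine ⟨4, by norm_num, by rw [h], by norm_num, fun p hp => ?_⟩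
    exact Fd2.small hb (by rw [h]) (by norm_num) hp
  · refine ⟨1, by norm_num, by rw [h], by norm_num, fun p hp => ?_⟩
    exact Fd2.small hb (by rw [h]) (by norm_num) hp

end Pool.Agent.H559.GO
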