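import Pool.Agent.H559.GO.Stm
import Pool.Agent.H559.IX.F0ec

set_option autoImplicit false

/-! # Goldbach graphs of the random primes: the assembly -/

open Finset MeasureTheory ProbabilityTheory Filter Topology
open Pool.Agent.T2H32.BF (Model V)
open Pool.Agent.H559.IX

namespace Pool.Agent.H559.GO

/-- `m` is an odd element of `A` less than `2 n` -/
def OB (A : Set ℕ) (n m : ℕ) : Prop := m ∈ A ∧ Odd m ∧ m < 2 * n

theorem nat_dist (σ a m : ℕ) : ((σ : ℤ) - a + 6 * m).natAbs = Nat.dist (6 * m + σ) a := by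
  rcases le_total a (6 * m + σ) with h | h
  · rw [Nat.dist_eq_sub_of_le_right h]
    omega
  · rw [Nat.dist_eq_sub_of_le h]
    omega

theorem odd_dist (s a : ℕ) (h : s % 2 ≠ a % 2) : Odd (Nat.dist s a) := by
  rw [Nat.odd_iff]
  rcases le_total a s with h1 | h1
  · rw [Nat.dist_eq_sub_of_le_right h1]
    omega
  · rw [Nat.dist_eq_sub_of_le h1]
    omega

theorem dist_le (s a n : ℕ) (h : s ≤ n) (h' : a ≤ n) : Nat.dist s a ≤ n := by
  rcases le_total a s with h1 | h1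
  · rw [Nat.dist_eq_sub_of_le_right h1]
    omega
  · rw [Nat.dist_eq_sub_of_le h1]
    omega

theorem props (hg : S_gen) (f1 : S_fd1) (f2 : S_fd2) (c : ℝ) (hc : 1 < c) (z : ℕ → ℕ) (hz : Lim z) (Ω : Type)
    [MeasurableSpace Ω] (P : Measure Ω) (a : ℕ → Ω → ℕ) (hP : Model P a) :
    ∀ᵐ ω ∂P, ∀ᶠ n : ℕ in atTop, 3 ≤ n ∧ H1 (OB (R0 z c (fun q => a q ω) ∪ {3}) n) n ∧
      H2 (OB (R0 z c (fun q => a q ω) ∪ {3}) n) n := by
  classical
  obtain ⟨C4, hC4, h4⟩ := hg c hc 4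
  obtain ⟨C3, hC3, h3⟩ := hg c hc 3
  filter_upwards [h4 z hz Ω P a hP, h3 z hz Ω P a hP] with ω g4 g3
  filter_upwards [F0ec.La_atTop.eventually g4, F0ec.La_atTop.eventually g3, F0ec.La_pow (C3 + C4 + 3),
    eventually_ge_atTop 100] with n g4 g3 gp hn
  have hΛ6 : 6 ≤ F0ec.La n := by
    unfold F0ec.La
    omega
  have hn0 : (0 : ℝ) < n := by exact_mod_cast (by omega : 0 < n)
  have hge := F0ec.La_ge n
  set Λ := F0ec.La n with hΛ
  have hlog0 : 0 ≤ Real.log n := Real.log_natCast_nonneg n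
  have hL1 : (1 : ℝ) ≤ Λ := by exact_mod_cast (by omega : 1 ≤ Λ)
  have hexp : (4 : ℝ) * n ≤ Real.exp ((Λ : ℝ) ^ 3) := by
    have e1 : Real.exp (Real.log n + 3) ≤ Real.exp ((Λ : ℝ) ^ 3) := by
      refine Real.exp_le_exp.2 ?_
      have h5 : (Λ : ℝ) ≤ (Λ : ℝ) ^ 3 := by nlinarith [sq_nonneg (Λ : ℝ)]
      linarith
    rw [Real.exp_add, Real.exp_log hn0] at e1
    have e2 : (4 : ℝ) ≤ Real.exp 3 := by
      have := Real.add_one_le_exp (3 : ℝ)
      linarith
    nlinarith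
  -- the size of the windows
  have hpw : ∀ k : ℕ, k ≤ C3 + C4 → 36 * Λ ^ k ≤ n := by
    intro k hk
    have e1 : Λ ^ (k + 2) ≤ Λ ^ (C3 + C4 + 3) := Nat.pow_le_pow_right (by omega) (by omega)
    have e2 : Λ ^ (k + 2) = Λ ^ k * (Λ * Λ) := by ring
    have e3 : Λ ^ k * 36 ≤ Λ ^ k * (Λ * Λ) := Nat.mul_le_mul_left _ (by nlinarith)
    omega
  have hw4 := hpw C4 (by omega)
  have hw3 := hpw C3 (by omega)
  refine ⟨by omega, ?_, ?_⟩
  · intro x y hx hy hpar h3d
    obtain ⟨σ, s1, s2, s3, s4⟩ := f1 x y hpar h3d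
    have hbd : ∀ t : ℤ, |t| ≤ 4 * n → (|t| : ℝ) ≤ Real.exp ((Λ : ℝ) ^ 3) := by
      intro t ht
      have : ((|t| : ℤ) : ℝ) ≤ ((4 * n : ℤ) : ℝ) := by exact_mod_cast ht
      push_cast at this
      exact this.trans hexp
    obtain ⟨m, m1, m2, m3⟩ := g4 ![(σ : ℤ) + x, (σ : ℤ) - x, (σ : ℤ) + y, (σ : ℤ) - y] (fun _ => 6) (by
      intro i
      have := hbd (![(σ : ℤ) + x, (σ : ℤ) - x, (σ : ℤ) + y, (σ : ℤ) - y] i) (by
        rw [abs_le]
        fin_cases i <;> simp <;> constructor <;> omega)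
      exact_mod_cast this) (fun i => ⟨by norm_num, by norm_num⟩) (by
      intro p hp
      obtain ⟨r, r1, r2, r3, r4⟩ := s4 p hp
      refine ⟨r, fun i => ?_⟩
      fin_cases i
      · exact r1
      · exact r2
      · exact r3
      · exact r4)
    have v0 := m3 0
    have v1 := m3 1
    have v2 := m3 2
    have v3 := m3 3
    simp only [Matrix.cons_val_zero, Matrix.cons_val_one, Matrix.cons_val] at v0 v1 v2 v3
    rw [nat_dist] at v1 v3
    have e0 : ((σ : ℤ) + x + 6 * m).natAbs = 6 * m + σ + x := by omega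
    have e2 : ((σ : ℤ) + y + 6 * m).natAbs = 6 * m + σ + y := by omega
    rw [e0] at v0
    rw [e2] at v2
    have hs : 6 * m + σ ≤ n := by omega
    have hs2 : 2 * (6 * m + σ) ≤ n := by omega
    have hpx : (6 * m + σ) % 2 ≠ x % 2 := by omega
    have hpy : (6 * m + σ) % 2 ≠ y % 2 := by omega
    refine ⟨6 * m + σ, by omega, hs, hpx, by omega, ⟨Or.inl v0, ?_, by omega⟩, ⟨Or.inl v1, odd_dist _ _ hpx, ?_⟩,
      ⟨Or.inl v2, ?_, by omega⟩, ⟨Or.inl v3, odd_dist _ _ hpy, ?_⟩⟩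
    · rw [Nat.odd_iff]
      omega
    · have := dist_le (6 * m + σ) x n hs hx
      omega
    · rw [Nat.odd_iff]
      omega
    · have := dist_le (6 * m + σ) y n hs hy
      omega
  · intro y hy h3d
    obtain ⟨σ, s1, s2, s3, s4⟩ := f2 y h3d
    have hbd : ∀ t : ℤ, |t| ≤ 4 * n → (|t| : ℝ) ≤ Real.exp ((Λ : ℝ) ^ 3) := by
      intro t ht
      have : ((|t| : ℤ) : ℝ) ≤ ((4 * n : ℤ) : ℝ) := by exact_mod_cast ht
      push_cast at this
      exact this.trans hexp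
    obtain ⟨m, m1, m2, m3⟩ := g3 ![2 * (σ : ℤ) + 3, (σ : ℤ) + 3 + y, (σ : ℤ) + 3 - y] ![12, 6, 6] (by
      intro i
      have := hbd (![2 * (σ : ℤ) + 3, (σ : ℤ) + 3 + y, (σ : ℤ) + 3 - y] i) (by
        rw [abs_le]
        fin_cases i <;> simp <;> constructor <;> omega)
      exact_mod_cast this) (fun i => by fin_cases i <;> simp) (by
      intro p hp
      obtain ⟨r, r1, r2, r3⟩ := s4 p hp
      refine ⟨r, fun i => ?_⟩
      fin_cases i
      · exact r1
      · exact r2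
      · exact r3)
    have v0 := m3 0
    have v1 := m3 1
    have v2 := m3 2
    simp only [Matrix.cons_val_zero, Matrix.cons_val_one, Matrix.cons_val] at v0 v1 v2
    have e0 : (2 * (σ : ℤ) + 3 + 12 * m).natAbs = 2 * (6 * m + σ) + 3 := by omega
    have e1 : ((σ : ℤ) + 3 + y + 6 * m).natAbs = 6 * m + σ + 3 + y := by omega
    have e2 : ((σ : ℤ) + 3 - y + 6 * m).natAbs = Nat.dist (6 * m + σ + 3) y := by
      have := nat_dist (σ + 3) y m
      have e : 6 * m + (σ + 3) = 6 * m + σ + 3 := by omega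
      rw [e] at this
      rw [← this]
      congr 1
    rw [e0] at v0
    rw [e1] at v1
    rw [e2] at v2
    have hs : 6 * m + σ + 3 ≤ n := by omega
    have hs2 : 2 * (6 * m + σ + 3) < n := by omega
    have hpy : (6 * m + σ + 3) % 2 ≠ y % 2 := by omega
    refine ⟨6 * m + σ, by omega, hs, by omega, by omega, ⟨Or.inl v0, ?_, by omega⟩, ⟨Or.inl v1, ?_, by omega⟩,
      ⟨Or.inl v2, odd_dist _ _ hpy, ?_⟩⟩
    · rw [Nat.odd_iff]
      omega
    · rw [Nat.odd_iff]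
      omega
    · have := dist_le (6 * m + σ + 3) y n hs hy
      omega

end Pool.Agent.H559.GO
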