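import Pool.Agent.H559.IX.StmM
import Mathlib.Combinatorics.SimpleGraph.Metric

set_option autoImplicit false

/-! # Goldbach graphs of the random primes: statements -/

open Finset MeasureTheory ProbabilityTheory Filter Topology
open Pool.Agent.T2H32.BF (Model V)
open Pool.Agent.H559.IX

namespace Pool.Agent.H559.GO

/-- the half of a vertex is `a`; `O m` : `m` is an odd (random) prime less than `2 n` -/
def H1 (O : ℕ → Prop) (n : ℕ) : Prop := ∀ a b : ℕ, a ≤ n → b ≤ n → a % 2 = b % 2 → (3 ∣ a ↔ 3 ∣ b) →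
  ∃ s : ℕ, 0 < s ∧ s ≤ n ∧ s % 2 ≠ a % 2 ∧ (3 ∣ s ↔ ¬ 3 ∣ a) ∧ O (s + a) ∧ O (Nat.dist s a) ∧ O (s + b) ∧ O (Nat.dist s b)

/-- the bridges -/
def H2 (O : ℕ → Prop) (n : ℕ) : Prop := ∀ b : ℕ, b ≤ n → 3 ∣ b →
  ∃ s : ℕ, 0 < s ∧ s + 3 ≤ n ∧ s % 2 = b % 2 ∧ ¬ 3 ∣ s ∧ O (2 * s + 3) ∧ O (s + 3 + b) ∧ O (Nat.dist (s + 3) b)

/-- COMB. PROOF. Write `a` for `val u`, `b` for `val v`, type of `a` = (`a % 2`, whether `3 ∣ a`). Call `x y` joined if their vertices are adjacent (`hE`; the values are different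
because `O` only holds for odd numbers, `Nat.dist x y = 0` is impossible). (1) Two vertices of the same type have distance `≤ 2`: `H1` gives a common neighbour `s`, `0 < s ≤ n`, so a vertex by `hs`.
(2) `H1 a a`: every `a` has a neighbour `s` with the other parity and the other divisibility by `3`; so if `a` and `b` differ in both, the distance is `≤ 1 + 2 = 3`.
(3) `H2 b` for `3 ∣ b`: `b` is joined to `s + 3` (`s + 3 + b`, `dist (s + 3) b`), and `s + 3` is joined to `s` (`s + 3 + s = 2 s + 3`, distance `3`, `O 3`); `s` has the parity of `b`, `s + 3` the other one, and `3`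
divides none of them. (4) same parity, exactly one divisible by `3`, say `b`: the distance of `b` and `s` is `≤ 2`, `s` and `a` have the same type, distance `≤ 2`: total `≤ 4`. (5) different parity, both divisible by `3`:
`b - (s + 3) - s` and `s`, `a` differ in both (`s % 2 = b % 2 ≠ a % 2`, `¬ 3 ∣ s`, `3 ∣ a`): total `≤ 2 + 3 = 5`. (6) different parity, none divisible by `3`: use `H2` for `b' = 0` if `a` is even and `b' = 3` if `a` is odd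
(`3 ≤ n`): `s` has the type of `a`, `s + 3` the type of `b`: total `≤ 2 + 1 + 2 = 5`. -/
def S_comb : Prop := ∀ (V : Type) (G : SimpleGraph V) (val : V → ℕ) (n : ℕ) (O : ℕ → Prop), 3 ≤ n → (∀ m, O m → Odd m) → O 3 →
  (∀ u v, val u ≠ val v → O (val u + val v) → O (Nat.dist (val u) (val v)) → G.Adj u v) → (∀ u v, val u = val v → u = v) →
  (∀ u, val u ≤ n) → (∀ s, 0 < s → s ≤ n → ∃ u, val u = s) → H1 O n → H2 O n →
    ∀ u v : V, ∃ w : G.Walk u v, w.length ≤ 5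

open Classical in
/-- GEN. Linear forms in short windows. PROOF (adapt `Sys.gen` in IX/Sys.lean): `Pool.Agent.H559.US.main_ae c hc k 1 (1 / 2)`, `C β₀ ≥ 3`, `N = Λ ^ C`, the array `C i = (α i, β i)`;
`NC`: for a prime `p > log N ≥ log Λ ≥ 12 ≥ |β i|`, `β i ≠ 0`, so `p` does not divide `β i`. -/
def S_gen : Prop := ∀ c : ℝ, 1 < c → ∀ k : ℕ, ∃ C : ℕ, 1 ≤ C ∧ ∀ z : ℕ → ℕ, Lim z → ∀ (Ω : Type) [MeasurableSpace Ω] (P : Measure Ω)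
  (a : ℕ → Ω → ℕ), Model P a → ∀ᵐ ω ∂P, ∀ᶠ Λ : ℕ in atTop, ∀ α β : Fin k → ℤ,
    (∀ i, (|α i| : ℝ) ≤ Real.exp ((Λ : ℝ) ^ 3)) → (∀ i, β i ≠ 0 ∧ |β i| ≤ 12) →
    (∀ p : ℕ, p.Prime → ∃ r : ℕ, ∀ i, ¬ (p : ℤ) ∣ α i + β i * r) →
      ∃ m : ℕ, 0 < m ∧ m ≤ Λ ^ C ∧ ∀ i, (α i + β i * m).natAbs ∈ R0 z c (fun q => a q ω)

/-- FD1. The first system has no fixed divisor. PROOF. `σ = a + 1 (mod 2)`; modulo `3`: `σ ≡ 0` if `3 ∤ a`, `σ ≡ 1` if `3 ∣ a` (`σ < 6` by the Chinese remainder theorem, or by cases `a % 6`). For `p = 2, 3` the four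
values at `r = 0` are not divisible by `p` (`a ≡ b (mod 2)`, `3 ∣ a ↔ 3 ∣ b`). For `p ≥ 5` choose a class `ρ` different from the classes of `a, -a, b, -b` (at most `4 < p` classes), and `r` with `6 r + σ ≡ ρ (mod p)`
(`6` is invertible modulo `p`). -/
def S_fd1 : Prop := ∀ a b : ℕ, a % 2 = b % 2 → (3 ∣ a ↔ 3 ∣ b) → ∃ σ : ℕ, σ < 6 ∧ σ % 2 ≠ a % 2 ∧ (3 ∣ σ ↔ ¬ 3 ∣ a) ∧
  ∀ p : ℕ, p.Prime → ∃ r : ℕ, ¬ (p : ℤ) ∣ (σ : ℤ) + a + 6 * r ∧ ¬ (p : ℤ) ∣ (σ : ℤ) - a + 6 * r ∧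
    ¬ (p : ℤ) ∣ (σ : ℤ) + b + 6 * r ∧ ¬ (p : ℤ) ∣ (σ : ℤ) - b + 6 * r

/-- FD2. The second system has no fixed divisor. PROOF. `σ ≡ b (mod 2)`, `σ ≡ 1 (mod 3)`. `p = 2, 3`: `r = 0`. `p ≥ 5`: with `s = 6 r + σ` at most three classes of `s` are forbidden (`2 s ≡ -3`, `s ≡ -3 - b`, `s ≡ -3 + b`). -/
def S_fd2 : Prop := ∀ b : ℕ, 3 ∣ b → ∃ σ : ℕ, σ < 6 ∧ σ % 2 = b % 2 ∧ ¬ 3 ∣ σ ∧
  ∀ p : ℕ, p.Prime → ∃ r : ℕ, ¬ (p : ℤ) ∣ 2 * (σ : ℤ) + 3 + 12 * r ∧ ¬ (p : ℤ) ∣ (σ : ℤ) + 3 + b + 6 * r ∧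
    ¬ (p : ℤ) ∣ (σ : ℤ) + 3 - b + 6 * r

end Pool.Agent.H559.GO
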